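import Pool.Agent.H63.Star.Iface2

/-!
# MP_bd4439_gt, module D3: from sections of dimension `k + 1` to sections of dimension `k`
-/

namespace Pool.Agent.H72.Star

open Set Filter Topology Pool.Agent.H63.Star
open scoped RealInnerProductSpace

section

variable {E : Type} [NormedAddCommGroup E] [InnerProductSpace ℝ E]

/-- the linear map `(u, c) ↦ u + c • d` -/
noncomputable def wMap (W : Submodule ℝ E) (d : E) : W × ℝ →ₗ[ℝ] E :=
  W.subtype.coprod (LinearMap.toSpanSingleton ℝ E d)

lemma wMap_apply (W : Submodule ℝ E) (d : E) (z : W × ℝ) : wMap W d z = (z.1 : E) + z.2 • d := by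
  simp [wMap]

lemma wMap_range (W : Submodule ℝ E) (d : E) : LinearMap.range (wMap W d) = W ⊔ Submodule.span ℝ {d} := by
  unfold wMap
  rw [LinearMap.range_coprod, Submodule.range_subtype, LinearMap.range_toSpanSingleton]

lemma wMap_inj {W : Submodule ℝ E} {d : E} (hd : ∀ w ∈ W, ⟪w, d⟫ = 0) (hd0 : d ≠ 0) (v : W × ℝ)
    (hv : v ≠ 0) : wMap W d v ≠ 0 := by
  intro h
  rw [wMap_apply] at h
  apply hv
  have h1 : ⟪(v.1 : E) + v.2 • d, d⟫ = 0 := by rw [h, inner_zero_left]
  rw [inner_add_left, hd _ v.1.2, inner_smul_left, zero_add] at h1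
  have h2 : ⟪d, d⟫ ≠ 0 := inner_self_ne_zero.mpr hd0
  have h3 : v.2 = 0 := by
    rcases mul_eq_zero.mp h1 with h4 | h4
    · simpa using h4
    · exact absurd h4 h2
  rw [h3, zero_smul, add_zero] at h
  exact Prod.ext (Subtype.ext h) h3

end

theorem reduce : ReduceStmt := by
  intro E _ _ _ F G k hF hG hk hkn hS W hW
  classical
  -- two orthonormal vectors in the orthogonal complement
  have hWc : 2 ≤ Module.finrank ℝ Wᗮ := by
    have := W.finrank_add_finrank_orthogonal
    omega
  set b := stdOrthonormalBasis ℝ Wᗮ with hb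
  set i0 : Fin (Module.finrank ℝ Wᗮ) := ⟨0, by omega⟩ with hi0
  set i1 : Fin (Module.finrank ℝ Wᗮ) := ⟨1, by omega⟩ with hi1
  have hi : i0 ≠ i1 := by
    intro h
    have := congrArg Fin.val h
    simp [hi0, hi1] at this
  set D : ℝ → E := fun θ => Real.cos θ • (b i0 : E) + Real.sin θ • (b i1 : E) with hD
  have hDc : Continuous D := by rw [hD]; fun_prop
  have hDW : ∀ θ, ∀ w ∈ W, ⟪w, D θ⟫ = 0 := by
    intro θ w hw
    simp only [hD]
    rw [inner_add_right, inner_smul_right, inner_smul_right,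
      Submodule.inner_right_of_mem_orthogonal hw (b i0).2,
      Submodule.inner_right_of_mem_orthogonal hw (b i1).2]
    simp
  have hDn : ∀ θ, ⟪D θ, D θ⟫ = 1 := by
    intro θ
    have h00 : ⟪(b i0 : E), (b i0 : E)⟫ = 1 := by
      have := b.inner_eq_ite i0 i0
      rw [if_pos rfl] at this
      exact this
    have h11 : ⟪(b i1 : E), (b i1 : E)⟫ = 1 := by
      have := b.inner_eq_ite i1 i1
      rw [if_pos rfl] at this
      exact this
    have h01 : ⟪(b i0 : E), (b i1 : E)⟫ = 0 := by
      have := b.inner_eq_ite i0 i1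
      rw [if_neg hi] at this
      exact this
    have h10 : ⟪(b i1 : E), (b i0 : E)⟫ = 0 := by rw [real_inner_comm]; exact h01
    simp only [hD]
    rw [inner_add_left, inner_add_right, inner_add_right]
    simp only [inner_smul_left, inner_smul_right, h00, h11, h01, h10]
    simp only [RCLike.conj_to_real]
    have := Real.sin_sq_add_cos_sq θ
    nlinarith
  have hD0 : ∀ θ, D θ ≠ 0 := by
    intro θ h
    have := hDn θ
    rw [h, inner_zero_left] at this
    exact zero_ne_one this
  have hrank : ∀ θ, Module.finrank ℝ (LinearMap.range (wMap W (D θ))) = k + 1 := by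
    intro θ
    have hinj : Function.Injective (wMap W (D θ)) := by
      rw [injective_iff_map_eq_zero]
      intro v hv
      by_contra hv0
      exact wMap_inj (hDW θ) (hD0 θ) v hv0 hv
    rw [LinearMap.finrank_range_of_inj hinj, Module.finrank_prod, hW, Module.finrank_self]
  -- choose the homothety as a function of the subspace
  have hS' : ∀ S : Submodule ℝ E, ∃ p : E × ℝ, Module.finrank ℝ S = k + 1 → Rel F G S p.1 p.2 := by
    intro S
    by_cases h : Module.finrank ℝ S = k + 1
    · obtain ⟨x, l, hxl⟩ := hS S h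
      exact ⟨(x, l), fun _ => hxl⟩
    · exact ⟨(0, 0), fun h' => absurd h' h⟩
  choose c hc using hS'
  set T : ℝ → Submodule ℝ E := fun θ => LinearMap.range (wMap W (D θ)) with hT
  have hrel : ∀ θ, Rel F G (T θ) (c (T θ)).1 (c (T θ)).2 := fun θ => hc _ (hrank θ)
  have hex : ∀ θ, ∃ v : W × ℝ, wMap W (D θ) v = (c (T θ)).1 := fun θ => (hrel θ).1
  choose ξ hξ using hex
  have hWn : Nontrivial W := Module.nontrivial_of_finrank_pos (R := ℝ) (by omega)
  have hcont : ∀ θ, ContinuousAt ξ θ := by
    intro θ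
    refine (family_cont (F := F) (G := G) hF hG (fun θ => wMap W (D θ)) ?_ θ
      (wMap_inj (hDW θ) (hD0 θ)) ξ (fun θ => (c (T θ)).2) ?_).1
    · simp only [wMap_apply]
      fun_prop
    · apply Eventually.of_forall
      intro p
      refine ⟨(hrel p).2.1, fun z => ?_⟩
      rw [map_add, map_smul, hξ]
      exact (hrel p).2.2 _ (LinearMap.mem_range_self _ z)
  set g : ℝ → ℝ := fun θ => (ξ θ).2 with hg
  have hgc : Continuous g := by
    rw [continuous_iff_continuousAt]
    intro θ
    exact continuousAt_snd.comp (hcont θ)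
  have hgi : ∀ θ, g θ = ⟪(c (T θ)).1, D θ⟫ := by
    intro θ
    rw [← hξ, wMap_apply, inner_add_left, hDW θ _ (ξ θ).1.2, inner_smul_left, hDn θ]
    simp [hg]
  have hodd : ∀ θ, g (θ + Real.pi) = - g θ := by
    intro θ
    have e1 : D (θ + Real.pi) = -D θ := by
      simp only [hD, Real.cos_add_pi, Real.sin_add_pi]
      module
    have e2 : T (θ + Real.pi) = T θ := by
      simp only [hT, wMap_range, e1]
      congr 1
      rw [← Set.neg_singleton, Submodule.span_neg]
    rw [hgi, hgi, e1, e2, inner_neg_right]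
  obtain ⟨θ, hθ⟩ : ∃ θ, g θ = 0 := by
    have h0 := hodd 0
    rw [zero_add] at h0
    rcases le_total (g 0) 0 with h1 | h1
    · have := intermediate_value_univ 0 Real.pi hgc
      obtain ⟨θ, hθ⟩ := this (⟨h1, by linarith⟩ : (0 : ℝ) ∈ Icc (g 0) (g Real.pi))
      exact ⟨θ, hθ⟩
    · have := intermediate_value_univ Real.pi 0 hgc
      obtain ⟨θ, hθ⟩ := this (⟨by linarith, h1⟩ : (0 : ℝ) ∈ Icc (g Real.pi) (g 0))
      exact ⟨θ, hθ⟩
  refine ⟨(c (T θ)).1, (c (T θ)).2, (hrel θ).restrict ?_ ?_⟩
  · simp only [hT, wMap_range]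
    exact le_sup_left
  · rw [← hξ, wMap_apply]
    have : (ξ θ).2 = 0 := hθ
    rw [this, zero_smul, add_zero]
    exact (ξ θ).1.2

end Pool.Agent.H72.Star
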