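import Pool.Agent.H63.Star.Iface2

/-!
# MP_bd4439_gt, module D4: the theorem for gauges
-/

namespace Pool.Agent.H72.Star

open Set Filter Topology Pool.Agent.H63.Star
open scoped RealInnerProductSpace

theorem rel_sub {E : Type} [NormedAddCommGroup E] [InnerProductSpace ℝ E] {F G : E → ℝ}
    {V : Submodule ℝ E} {U : Submodule ℝ V} {x : V} {l : ℝ}
    (h : Rel (fun v : V => F v) (fun v : V => G v) U x l) : Rel F G (U.map V.subtype) (x : E) l := by
  obtain ⟨hx, hl, h⟩ := h
  refine ⟨⟨x, hx, rfl⟩, hl, ?_⟩
  rintro z ⟨z', hz', rfl⟩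
  exact h z' hz'

theorem rel_sub' {E : Type} [NormedAddCommGroup E] [InnerProductSpace ℝ E] {F G : E → ℝ}
    {V : Submodule ℝ E} {U : Submodule ℝ V} {x : E} {l : ℝ}
    (h : Rel F G (U.map V.subtype) x l) :
    ∃ x' : V, Rel (fun v : V => F v) (fun v : V => G v) U x' l := by
  obtain ⟨⟨x', hx', rfl⟩, hl, h⟩ := h
  refine ⟨x', hx', hl, fun z hz => ?_⟩
  exact h (z : E) ⟨z, hz, rfl⟩

theorem IsGauge.sub {E : Type} [NormedAddCommGroup E] [InnerProductSpace ℝ E] {F : E → ℝ}
    (hF : IsGauge F) (V : Submodule ℝ E) : IsGauge (fun v : V => F v) where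
  cont := hF.cont.comp continuous_subtype_val
  hom t x ht := hF.hom t x ht
  pos x hx := hF.pos x (by simpa using hx)

theorem gauge (hM : MainStepStmt) (hR : ReduceStmt) : GaugeStmt := by
  intro E _ _ _ F G k hF hG hk hkn hS
  -- two-dimensional sections
  have h2 : ∀ j, 2 ≤ j → j ≤ k → ∀ S : Submodule ℝ E, Module.finrank ℝ S = j →
      ∃ (x : E) (l : ℝ), Rel F G S x l := by
    intro j hj2 hjk
    induction hjk using Nat.decreasingInduction with
    | self => exact hS
    | of_succ j hjk ih =>
      exact hR E F G j hF hG (by omega) (by omega) (ih (by omega))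
  -- all subspaces
  have hall : ∀ n, ∀ V : Submodule ℝ E, Module.finrank ℝ V = n → 2 ≤ n →
      ∃ (x : E) (l : ℝ), Rel F G V x l := by
    intro n
    induction n using Nat.strong_induction_on with
    | _ n ih =>
      intro V hV hn
      rcases Nat.lt_or_ge 2 n with h3 | h3
      · obtain ⟨x, l, hxl⟩ := hM V (fun v : V => F v) (fun v : V => G v) (IsGauge.sub hF V)
          (IsGauge.sub hG V) (by omega) (by
            intro U hU2 hUV
            have hU' : Module.finrank ℝ (U.map V.subtype) = Module.finrank ℝ U :=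
              Submodule.finrank_map_subtype_eq V U
            obtain ⟨x, l, hxl⟩ := ih (Module.finrank ℝ U) (by omega) (U.map V.subtype) hU' hU2
            obtain ⟨x', hx'⟩ := rel_sub' hxl
            exact ⟨x', l, hx'⟩)
        have := rel_sub hxl
        rw [Submodule.map_top, Submodule.range_subtype] at this
        exact ⟨_, _, this⟩
      · have : n = 2 := by omega
        exact h2 2 le_rfl hk V (by omega)
  exact hall _ ⊤ rfl (by rw [finrank_top]; omega)

end Pool.Agent.H72.Star
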